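import Pool.Agent.helper36.PT.Spec
import Pool.Agent.helper71.AA.S1

/-!
# Project PT, row GPR: removing a prime from Selberg's sum
-/

set_option autoImplicit false

namespace Pool.Agent.PT

open Finset Pool.Agent.helper71.AA

lemma GPR_key {Q : Finset ℕ} (hQ : ∀ l ∈ Q, 2 ≤ l) {p : ℕ} (hp : p ∈ Q) (R : ℝ) :
    Gs Q R ≤ (1 + 1 / ((p : ℝ) - 1)) * Gs (Q.erase p) R := by
  classical
  have hp2 : (2 : ℝ) ≤ p := by exact_mod_cast hQ p hp
  have hQ' : ∀ l ∈ Q.erase p, 2 ≤ l := fun l hl => hQ l (mem_of_mem_erase hl)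
  have hinj : Set.InjOn (insert p) (Sub (Q.erase p) R : Set (Finset ℕ)) := by
    intro K hK K' hK' h
    rw [mem_coe, S1_mem_Sub] at hK hK'
    have h1 : p ∉ K := fun h => (mem_erase.1 (hK.1 h)).1 rfl
    have h2 : p ∉ K' := fun h => (mem_erase.1 (hK'.1 h)).1 rfl
    have h3 := congrArg (fun S : Finset ℕ => S.erase p) h
    simp only [erase_insert h1, erase_insert h2] at h3
    exact h3
  have hsub : Sub Q R ⊆ Sub (Q.erase p) R ∪ (Sub (Q.erase p) R).image (insert p) := by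
    intro K hK
    rw [S1_mem_Sub] at hK
    rw [mem_union, mem_image]
    by_cases h : p ∈ K
    · right
      refine ⟨K.erase p, ?_, insert_erase h⟩
      rw [S1_mem_Sub]
      refine ⟨erase_subset_erase p hK.1, le_trans ?_ hK.2⟩
      have h1 : pr K = p * pr (K.erase p) := by
        unfold pr
        exact (mul_prod_erase K (fun l => (l : ℝ)) h).symm
      have h2 : 0 < pr (K.erase p) :=
        S1_pr_pos fun l hl => hQ l (hK.1 (mem_of_mem_erase hl))
      rw [h1]
      nlinarith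
    · left
      rw [S1_mem_Sub]
      exact ⟨fun l hl => mem_erase.2 ⟨fun h' => h (h' ▸ hl), hK.1 hl⟩, hK.2⟩
  have hnn : ∀ K ∈ Sub (Q.erase p) R, (0 : ℝ) ≤ 1 / ph K := by
    intro K hK
    rw [S1_mem_Sub] at hK
    have := S1_ph_pos fun l hl => hQ' l (hK.1 hl)
    positivity
  have hph : ∀ K ∈ Sub (Q.erase p) R, 1 / ph (insert p K) = 1 / ((p : ℝ) - 1) * (1 / ph K) := by
    intro K hK
    rw [S1_mem_Sub] at hK
    have h1 : p ∉ K := fun h => (mem_erase.1 (hK.1 h)).1 rfl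
    unfold ph
    rw [prod_insert h1, one_div_mul_one_div]
  have hp1 : (0 : ℝ) ≤ 1 / ((p : ℝ) - 1) := by
    apply div_nonneg zero_le_one
    linarith
  unfold Gs
  calc ∑ K ∈ Sub Q R, 1 / ph K
      ≤ ∑ K ∈ Sub (Q.erase p) R ∪ (Sub (Q.erase p) R).image (insert p), 1 / ph K := by
        refine sum_le_sum_of_subset_of_nonneg hsub fun K hK _ => ?_
        rw [mem_union, mem_image] at hK
        rcases hK with hK | ⟨K', hK', rfl⟩
        · exact hnn K hK
        · rw [hph K' hK']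
          exact mul_nonneg hp1 (hnn K' hK')
    _ ≤ ∑ K ∈ Sub (Q.erase p) R, 1 / ph K +
        ∑ K ∈ (Sub (Q.erase p) R).image (insert p), 1 / ph K := by
        rw [← sum_union_inter]
        refine le_add_of_nonneg_right (sum_nonneg fun K hK => ?_)
        exact hnn K (mem_inter.1 hK).1
    _ = (1 + 1 / ((p : ℝ) - 1)) * ∑ K ∈ Sub (Q.erase p) R, 1 / ph K := by
        rw [sum_image hinj, sum_congr rfl hph, ← mul_sum]
        ring

theorem GPR : GPR_stmt := by
  intro w Z hw Q hQs R p hR hwp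
  have hQ : ∀ l ∈ Q, 2 ≤ l := fun l hl => by
    have h1 := mem_filter.1 (hQs hl)
    exact h1.2.two_le
  have hQ' : ∀ l ∈ Q.erase p, 2 ≤ l := fun l hl => hQ l (mem_of_mem_erase hl)
  have h1 : 1 ≤ Gs (Q.erase p) R := by
    have h2 : (∅ : Finset ℕ) ∈ Sub (Q.erase p) R := by
      rw [S1_mem_Sub]
      refine ⟨empty_subset _, ?_⟩
      unfold pr
      rw [prod_empty]
      exact hR
    have h3 := single_le_sum (f := fun K : Finset ℕ => 1 / ph K) (fun K hK => by
      rw [S1_mem_Sub] at hK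
      have := S1_ph_pos fun l hl => hQ' l (hK.1 hl)
      show (0 : ℝ) ≤ 1 / ph K
      positivity) h2
    simpa [ph, Gs] using h3
  refine ⟨h1, S1_Gs_mono (erase_subset p Q) hQ R, ?_⟩
  have hw2 : (2 : ℝ) ≤ w := by exact_mod_cast hw
  have hw0 : (0 : ℝ) < w := by linarith
  have hw1 : (0 : ℝ) ≤ 1 - 2 / w := by
    rw [sub_nonneg, div_le_one hw0]
    exact hw2
  by_cases hp : p ∈ Q
  · have h2 := mul_le_mul_of_nonneg_left (GPR_key hQ hp R) hw1
    refine h2.trans ?_
    have hpw : (w : ℝ) + 1 ≤ p := by exact_mod_cast hwp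
    have h3 : 1 / ((p : ℝ) - 1) ≤ 1 / w := one_div_le_one_div_of_le hw0 (by linarith)
    have h4 : (1 - 2 / (w : ℝ)) * (1 + 1 / ((p : ℝ) - 1)) ≤ 1 := by
      calc (1 - 2 / (w : ℝ)) * (1 + 1 / ((p : ℝ) - 1)) ≤ (1 - 2 / (w : ℝ)) * (1 + 1 / w) :=
            mul_le_mul_of_nonneg_left (by linarith) hw1
        _ = 1 - 1 / w - 2 / w ^ 2 := by field_simp; ring
        _ ≤ 1 := by
          have h5 : (0 : ℝ) ≤ 1 / w := by positivity
          have h6 : (0 : ℝ) ≤ 2 / w ^ 2 := by positivity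
          linarith
    rw [← mul_assoc]
    calc (1 - 2 / (w : ℝ)) * (1 + 1 / ((p : ℝ) - 1)) * Gs (Q.erase p) R ≤ 1 * Gs (Q.erase p) R :=
          mul_le_mul_of_nonneg_right h4 (by linarith)
      _ = _ := one_mul _
  · rw [erase_eq_of_notMem hp] at h1 ⊢
    have h3 : (0 : ℝ) ≤ 2 / w := by positivity
    nlinarith

end Pool.Agent.PT
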